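import Mathlib

/-!
# A group which is not d-independent but whose square is
-/

namespace Pool.Agent.Results.MP_23f360_gt.SquareDIndependent

open Set Topology Cardinal

/-- An (additive) topological group `G` is d-independent if it is non-trivial and every subgroup
`S` of cardinality less than the continuum meets some countable dense subgroup `D` only in `0`. -/
def DIndependent (G : Type) [AddCommGroup G] [TopologicalSpace G] : Prop :=
  Nontrivial G ∧ ∀ S : AddSubgroup G, #S < 𝔠 →
    ∃ D : AddSubgroup G, (D : Set G).Countable ∧ Dense (D : Set G) ∧ S ⊓ D = ⊥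

/-- The field with two elements. -/
abbrev F := ZMod 2

/-- The group: the vector space over the field with two elements with basis `d n`, `b ζ n`. -/
abbrev V := (Option ℝ × ℕ) →₀ F

/-- Basis vectors `d n`. -/
noncomputable def d (n : ℕ) : V := Finsupp.single (none, n) 1

/-- Basis vectors `b ζ n`. -/
noncomputable def b (ζ : ℝ) (n : ℕ) : V := Finsupp.single (some ζ, n) 1

/-- The embedding of the finitely supported sequences on the coordinates `o`. -/
noncomputable def emb (o : Option ℝ) : (ℕ →₀ F) →ₗ[F] V :=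
  Finsupp.lmapDomain F F (fun n => (o, n))

theorem emb_single (o : Option ℝ) (n : ℕ) (t : F) :
    emb o (Finsupp.single n t) = Finsupp.single (o, n) t := by
  simp [emb]

theorem emb_none (n : ℕ) : emb none (Finsupp.single n 1) = d n := emb_single _ _ _

theorem emb_some (ζ : ℝ) (n : ℕ) : emb (some ζ) (Finsupp.single n 1) = b ζ n := emb_single _ _ _

theorem emb_apply_self (o : Option ℝ) (p : ℕ →₀ F) (n : ℕ) : emb o p (o, n) = p n := by
  have h : Function.Injective (fun n : ℕ => (o, n)) := fun a b h => (Prod.ext_iff.mp h).2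
  exact Finsupp.mapDomain_apply h p n

theorem emb_apply_ne {o o' : Option ℝ} (h : o' ≠ o) (p : ℕ →₀ F) (n : ℕ) : emb o p (o', n) = 0 := by
  refine Finsupp.mapDomain_of_notMem_range p (o', n) ?_
  rintro ⟨m, hm⟩
  exact h (Prod.ext_iff.mp hm).1.symm

theorem emb_injective (o : Option ℝ) : Function.Injective (emb o) := by
  intro p q h
  ext n
  rw [← emb_apply_self o p n, ← emb_apply_self o q n, h]

/-- The subspace spanned by the `d n`. -/
noncomputable def D0 : Submodule F V := LinearMap.range (emb none)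

/-- The set of indices `ζ` for which the functional `x` does not vanish on all `b ζ n`. -/
def bsupp (x : V →ₗ[F] F) : Set ℝ := {ζ | ∃ n, x (b ζ n) ≠ 0}

/-- Existence of functionals. -/
theorem exists_functional (E : Submodule F V) (hE : (E : Set V).Countable) (hED : E ⊓ D0 = ⊥)
    (y : ℕ → F) : ∃ x : V →ₗ[F] F, (∀ e ∈ E, x e = 0) ∧ (∀ n, x (d n) = y n) ∧
      (bsupp x).Countable := by
  classical
  set f : (ℕ →₀ F) →ₗ[F] (V ⧸ E) := E.mkQ ∘ₗ emb none with hf
  have hker : LinearMap.ker f = ⊥ := by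
    rw [LinearMap.ker_eq_bot']
    intro p hp
    have h1 : emb none p ∈ E := by
      rw [hf, LinearMap.comp_apply, Submodule.mkQ_apply, Submodule.Quotient.mk_eq_zero] at hp
      exact hp
    have h2 : emb none p ∈ E ⊓ D0 := ⟨h1, ⟨p, rfl⟩⟩
    rw [hED, Submodule.mem_bot] at h2
    exact emb_injective none (by rw [h2, map_zero])
  obtain ⟨l, hl⟩ := f.exists_leftInverse_of_injective hker
  set z : V →ₗ[F] F := (Finsupp.linearCombination F y) ∘ₗ l ∘ₗ E.mkQ with hz
  have hzE : ∀ e ∈ E, z e = 0 := by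
    intro e he
    rw [hz, LinearMap.comp_apply, LinearMap.comp_apply, Submodule.mkQ_apply,
      (Submodule.Quotient.mk_eq_zero E).mpr he, map_zero, map_zero]
  have hzd : ∀ n, z (d n) = y n := by
    intro n
    have h1 : l (f (Finsupp.single n 1)) = Finsupp.single n 1 := by
      have := LinearMap.congr_fun hl (Finsupp.single n 1)
      exact this
    rw [hf, LinearMap.comp_apply, emb_none] at h1
    rw [hz, LinearMap.comp_apply, LinearMap.comp_apply, h1]
    simp
  set C : Set ℝ := {ζ | ∃ e ∈ E, ∃ n, e (some ζ, n) ≠ 0} with hC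
  have hCc : C.Countable := by
    have h1 : C ⊆ ⋃ e ∈ (E : Set V), {ζ | ∃ n, e (some ζ, n) ≠ 0} := by
      rintro ζ ⟨e, he, n, hn⟩
      simp only [mem_iUnion]
      exact ⟨e, he, n, hn⟩
    refine (hE.biUnion fun e _ => ?_).mono h1
    have h2 : {ζ | ∃ n, e (some ζ, n) ≠ 0} ⊆ some ⁻¹' (Prod.fst '' (e.support : Set (Option ℝ × ℕ))) := by
      rintro ζ ⟨n, hn⟩
      exact ⟨(some ζ, n), by simpa using hn, rfl⟩
    exact (((e.support.finite_toSet.image _).preimage
      (Option.some_injective ℝ).injOn).subset h2).countable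
  set x : V →ₗ[F] F := Finsupp.linearCombination F (fun p : Option ℝ × ℕ =>
    if p.1 = none ∨ ∃ ζ ∈ C, p.1 = some ζ then z (Finsupp.single p 1) else 0) with hx
  have hzlc : ∀ v : V, z v = Finsupp.linearCombination F
      (fun p : Option ℝ × ℕ => z (Finsupp.single p 1)) v := by
    intro v
    have : z = Finsupp.linearCombination F (fun p : Option ℝ × ℕ => z (Finsupp.single p 1)) := by
      refine Finsupp.lhom_ext' fun p => LinearMap.ext_ring ?_
      simp
    exact LinearMap.congr_fun this v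
  refine ⟨x, ?_, ?_, ?_⟩
  · intro e he
    rw [← hzE e he, hzlc, hx, Finsupp.linearCombination_apply, Finsupp.linearCombination_apply]
    refine Finsupp.sum_congr fun p hp => ?_
    rw [if_pos]
    rcases p with ⟨o, n⟩
    rcases o with _ | ζ
    · left; rfl
    · right
      exact ⟨ζ, ⟨e, he, n, Finsupp.mem_support_iff.mp hp⟩, rfl⟩
  · intro n
    rw [hx, d, Finsupp.linearCombination_single, one_smul, if_pos (Or.inl rfl)]
    exact hzd n
  · refine hCc.mono ?_
    rintro ζ ⟨n, hn⟩
    rw [hx, b, Finsupp.linearCombination_single, one_smul] at hn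
    by_contra hζ
    rw [if_neg] at hn
    · exact hn rfl
    · simp only [reduceCtorEq, Option.some.injEq, exists_eq_right', false_or]
      exact hζ

/-- The functionals used in the recursion. -/
abbrev Xty := {x : V →ₗ[F] F // (bsupp x).Countable}

/-- The well-ordered index set of cardinality continuum all of whose initial segments are
smaller. -/
abbrev Λ : Type := (𝔠 : Cardinal.{0}).ord.ToType

theorem small_Iio (i : Λ) : #{j : Λ // j < i} < 𝔠 := by
  have h1 : Ordinal.typein (α := Λ) (· < ·) i < (𝔠 : Cardinal.{0}).ord := Ordinal.typein_lt_self i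
  have h2 := Cardinal.lt_ord.mp h1
  rwa [Ordinal.card_typein] at h2

/-- Codes for pairs `(E, g)`: `E` the span of a sequence, `g` a non-zero element of `D0`. -/
abbrev Valid : Type := {p : (ℕ → V) × (ℕ →₀ F) //
  Submodule.span F (range p.1) ⊓ D0 = ⊥ ∧ p.2 ≠ 0}

theorem mk_V : #V ≤ 𝔠 := by
  rw [mk_finsupp_of_infinite]
  simp only [mk_prod, mk_option, lift_id, mk_eq_aleph0, mk_real]
  rw [add_one_eq aleph0_le_continuum, continuum_mul_aleph0]
  refine max_le le_rfl ?_
  exact ((lt_aleph0_of_finite F).trans aleph0_lt_continuum).le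

theorem mk_valid : #Valid ≤ 𝔠 := by
  refine (mk_subtype_le _).trans ?_
  have h1 : #((ℕ → V) × (ℕ →₀ F)) = #(ℕ → V) * #(ℕ →₀ F) := by simp
  rw [h1]
  have h2 : #(ℕ → V) ≤ 𝔠 := by
    have : #(ℕ → V) = #V ^ #ℕ := by simp
    rw [this]
    calc #V ^ #ℕ ≤ 𝔠 ^ #ℕ := Cardinal.power_le_power_right mk_V
      _ = 𝔠 := by simp
  have h3 : #(ℕ →₀ F) ≤ 𝔠 := by
    rw [mk_finsupp_of_infinite]
    simp [aleph0_le_continuum]
  calc #(ℕ → V) * #(ℕ →₀ F) ≤ 𝔠 * 𝔠 := mul_le_mul' h2 h3
    _ = 𝔠 := by simp

theorem exists_enum : ∃ e : Λ → Valid, Function.Surjective e := by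
  have h1 : #Valid ≤ #Λ := by
    rw [mk_ord_toType]
    exact mk_valid
  obtain ⟨j⟩ := h1
  have hne : Nonempty Valid := by
    refine ⟨⟨(fun _ => 0, Finsupp.single 0 1), ?_, ?_⟩⟩
    · have : Submodule.span F (range fun _ : ℕ => (0 : V)) = ⊥ := by
        rw [Submodule.span_eq_bot]
        rintro _ ⟨n, rfl⟩
        rfl
      rw [this, bot_inf_eq]
    · simp
  exact ⟨Function.invFun j, Function.invFun_surjective j.injective⟩

theorem mk_finsupp_lt {I : Type} (h : #I < 𝔠) : #(I →₀ F) < 𝔠 := by
  rcases finite_or_infinite I with hI | hI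
  · have : Finite (I →₀ F) := Finite.of_equiv _ Finsupp.equivFunOnFinite.symm
    exact (lt_aleph0_of_finite _).trans aleph0_lt_continuum
  · rw [mk_finsupp_of_infinite]
    exact max_lt h ((lt_aleph0_of_finite _).trans aleph0_lt_continuum)

/-- The property of the next functional. -/
def Next (e : Λ → Valid) (i : Λ) (prev : ∀ j, j < i → Xty) (x : Xty) : Prop :=
  (∀ v ∈ Submodule.span F (range (e i).1.1), x.1 v = 0) ∧ x.1 (emb none (e i).1.2) = 1 ∧
    ∀ (a c : {j : Λ // j < i} →₀ F) (ζ : ℝ), (fun n => x.1 (d n)) ≠ fun n =>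
      (a.sum fun j t => t * (prev j.1 j.2).1 (d n)) +
        (c.sum fun j t => t * (prev j.1 j.2).1 (b ζ n))

theorem exists_avoid {B : Set (ℕ → F)} (hB : #B < 𝔠) {g : ℕ →₀ F} (hg : g ≠ 0) :
    ∃ y : ℕ → F, y ∉ B ∧ Finsupp.linearCombination F y g = 1 := by
  by_contra hcon
  push Not at hcon
  obtain ⟨m, hm⟩ := Finsupp.ne_iff.mp hg
  rw [Finsupp.zero_apply] at hm
  have hm1 : g m = 1 := by
    have : ∀ t : F, t ≠ 0 → t = 1 := by decide
    exact this _ hm
  have hlin : ∀ y : ℕ → F, Finsupp.linearCombination F (y + Pi.single m 1) g =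
      Finsupp.linearCombination F y g + 1 := by
    intro y
    have h1 : Finsupp.linearCombination F (Pi.single m (1 : F)) g = 1 := by
      rw [Finsupp.linearCombination_apply, Finsupp.sum,
        Finset.sum_eq_single m]
      · rw [hm1]; simp
      · intro k _ hk
        rw [Pi.single_eq_of_ne hk, smul_zero]
      · intro h
        rw [Finsupp.notMem_support_iff.mp h, zero_smul]
    have h2 : ∀ w : ℕ → F, Finsupp.linearCombination F (y + w) g =
        Finsupp.linearCombination F y g + Finsupp.linearCombination F w g := by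
      intro w
      simp only [Finsupp.linearCombination_apply, Finsupp.sum, Pi.add_apply, smul_add,
        Finset.sum_add_distrib]
    rw [h2, h1]
  have hcover : (univ : Set (ℕ → F)) ⊆ B ∪ (fun y => y + Pi.single m 1) '' B := by
    intro y _
    have h01 : ∀ t : F, t = 1 ∨ t + 1 = 1 := by decide
    rcases h01 (Finsupp.linearCombination F y g) with h | h
    · left
      by_contra hy
      exact hcon y hy h
    · right
      rw [← hlin] at h
      have h2 : y + Pi.single m 1 ∈ B := by
        by_contra hy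
        exact hcon _ hy h
      refine ⟨_, h2, ?_⟩
      simp only
      rw [add_assoc]
      have : (Pi.single m 1 : ℕ → F) + Pi.single m 1 = 0 := by
        funext k
        have : ∀ t : F, t + t = 0 := by decide
        exact this _
      rw [this, add_zero]
  have h1 : #(univ : Set (ℕ → F)) < 𝔠 := by
    refine (mk_le_mk_of_subset hcover).trans_lt ((mk_union_le _ _).trans_lt ?_)
    exact add_lt_of_lt aleph0_le_continuum hB (mk_image_le.trans_lt hB)
  rw [mk_univ] at h1
  have h2 : #(ℕ → F) = 𝔠 := by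
    have : #(ℕ → F) = #F ^ #ℕ := by simp
    rw [this]
    have h3 : #F = 2 := by
      rw [mk_fintype, ZMod.card]
      rfl
    rw [h3, mk_nat, two_power_aleph0]
  exact absurd h1 (by rw [h2]; exact lt_irrefl _)

theorem exists_next (e : Λ → Valid) (i : Λ) (prev : ∀ j, j < i → Xty) :
    ∃ x : Xty, Next e i prev x := by
  classical
  set I := {j : Λ // j < i}
  set K : Set ℝ := ⋃ j : I, bsupp (prev j.1 j.2).1 with hK
  have hKc : #K < 𝔠 := by
    refine mk_iUnion_le_sum_mk.trans_lt ?_
    have h1 : (Cardinal.sum fun j : I => #(bsupp (prev j.1 j.2).1)) ≤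
        Cardinal.sum fun _ : I => ℵ₀ := Cardinal.sum_le_sum _ _ fun j => (prev j.1 j.2).2.le_aleph0
    refine h1.trans_lt ?_
    rw [Cardinal.sum_const']
    exact mul_lt_of_lt aleph0_le_continuum (small_Iio i) aleph0_lt_continuum
  set φ : (I →₀ F) × (I →₀ F) × (insert (0 : ℝ) K : Set ℝ) → (ℕ → F) := fun p n =>
    (p.1.sum fun j t => t * (prev j.1 j.2).1 (d n)) +
      (p.2.1.sum fun j t => t * (prev j.1 j.2).1 (b p.2.2 n)) with hφ
  have hrange : #(range φ) < 𝔠 := by
    refine mk_range_le.trans_lt ?_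
    simp only [mk_prod, lift_id]
    have h1 := mk_finsupp_lt (small_Iio i)
    have h2 : #(insert (0 : ℝ) K : Set ℝ) < 𝔠 :=
      mk_insert_le.trans_lt (add_lt_of_lt aleph0_le_continuum hKc
        (one_lt_aleph0.trans aleph0_lt_continuum))
    exact mul_lt_of_lt aleph0_le_continuum h1 (mul_lt_of_lt aleph0_le_continuum h1 h2)
  obtain ⟨y, hyB, hyg⟩ := exists_avoid hrange (e i).2.2
  have hspan : ((Submodule.span F (range (e i).1.1) : Submodule F V) : Set V).Countable := by
    rw [← Finsupp.range_linearCombination, LinearMap.coe_range]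
    exact countable_range _
  obtain ⟨x, hx1, hx2, hx3⟩ := exists_functional _ hspan (e i).2.1 y
  refine ⟨⟨x, hx3⟩, hx1, ?_, ?_⟩
  · rw [← hyg]
    have : x ∘ₗ emb none = Finsupp.linearCombination F y := by
      refine Finsupp.lhom_ext' fun n => LinearMap.ext_ring ?_
      simp only [LinearMap.comp_apply, Finsupp.lsingle_apply, emb_none, hx2,
        Finsupp.linearCombination_single, one_smul]
    exact LinearMap.congr_fun this _
  · intro a c ζ heq
    apply hyB
    have hy : y = fun n => x (d n) := funext fun n => (hx2 n).symm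
    rw [hy, heq]
    by_cases hζ : ζ ∈ K
    · exact ⟨(a, c, ⟨ζ, Or.inr hζ⟩), rfl⟩
    · refine ⟨(a, 0, ⟨0, Or.inl rfl⟩), ?_⟩
      funext n
      simp only [hφ, Finsupp.sum_zero_index, add_zero]
      have h0 : (c.sum fun j t => t * (prev j.1 j.2).1 (b ζ n)) = 0 := by
        rw [Finsupp.sum]
        refine Finset.sum_eq_zero fun j _ => ?_
        have : (prev j.1 j.2).1 (b ζ n) = 0 := by
          by_contra hne
          exact hζ (mem_iUnion.mpr ⟨j, ⟨n, hne⟩⟩)
        rw [this, mul_zero]
      rw [h0, add_zero]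

/-- The transfinite sequence of functionals. -/
theorem exists_family : ∃ (e : Λ → Valid) (x : Λ → Xty), Function.Surjective e ∧
    ∀ i, Next e i (fun j _ => x j) (x i) := by
  obtain ⟨e, he⟩ := exists_enum
  choose nxt hnxt using exists_next e
  let x : Λ → Xty := (wellFounded_lt : WellFounded ((· < ·) : Λ → Λ → Prop)).fix
    (fun i prev => nxt i prev)
  refine ⟨e, x, he, fun i => ?_⟩
  have h1 : x i = nxt i (fun j _ => x j) := WellFounded.fix_eq _ _ i
  rw [h1]
  exact hnxt i _

/-! ## The topology -/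

/-- The initial topology on `V` for a family of functionals. -/
@[instance_reducible]
noncomputable def topo (x : Λ → Xty) : TopologicalSpace V :=
  TopologicalSpace.induced (fun v : V => fun i : Λ => (x i).1 v) inferInstance

/-- The evaluation homomorphism. -/
noncomputable def evalHom (x : Λ → Xty) : V →+ (Λ → F) where
  toFun v i := (x i).1 v
  map_zero' := by funext i; simp
  map_add' v w := by funext i; simp

theorem isTopologicalAddGroup_topo (x : Λ → Xty) : @IsTopologicalAddGroup V (topo x) _ :=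
  topologicalAddGroup_induced (evalHom x)

/-- A subgroup of `V × V` whose image under any finite set of functionals is as large as possible
is dense. -/
theorem dense_of_finite (x : Λ → Xty) (D : Set (V × V))
    (h : ∀ (s : Finset Λ) (u v : V), ∃ p ∈ D, ∀ i ∈ s, (x i).1 p.1 = (x i).1 u ∧
      (x i).1 p.2 = (x i).1 v) :
    @Dense (V × V) (@instTopologicalSpaceProd V V (topo x) (topo x)) D := by
  let _ := topo x
  intro q
  rw [mem_closure_iff_nhds]
  intro t ht
  -- a basic neighbourhood
  have hb : ∀ w : V, ∀ N ∈ 𝓝 w, ∃ s : Finset Λ, ∀ w' : V, (∀ i ∈ s, (x i).1 w' = (x i).1 w) →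
      w' ∈ N := by
    intro w N hN
    rw [nhds_induced, Filter.mem_comap] at hN
    obtain ⟨M, hM, hMN⟩ := hN
    rw [nhds_pi, Filter.mem_pi'] at hM
    obtain ⟨s, t, ht, hst⟩ := hM
    refine ⟨s, fun w' hw' => hMN (hst ?_)⟩
    intro i hi
    simp only
    rw [hw' i hi]
    exact mem_of_mem_nhds (ht i)
  obtain ⟨N1, hN1, N2, hN2, hsub⟩ := mem_nhds_prod_iff.mp ht
  obtain ⟨s1, hs1⟩ := hb q.1 N1 hN1
  obtain ⟨s2, hs2⟩ := hb q.2 N2 hN2
  classical
  obtain ⟨p, hp, hps⟩ := h (s1 ∪ s2) q.1 q.2
  refine ⟨p, hsub ⟨hs1 _ fun i hi => (hps i (Finset.mem_union_left _ hi)).1,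
    hs2 _ fun i hi => (hps i (Finset.mem_union_right _ hi)).2⟩, hp⟩

/-- Duality: if a subspace `D` of `V × V` does not attain all values, there is a non-zero
combination of functionals vanishing on `D`. -/
theorem exists_annihilator (x : Λ → Xty) (D : Submodule F (V × V)) (s : Finset Λ) (u v : V)
    (h : ¬ ∃ p ∈ D, ∀ i ∈ s, (x i).1 p.1 = (x i).1 u ∧ (x i).1 p.2 = (x i).1 v) :
    ∃ α β : Λ → F, (∀ p ∈ D, ∑ i ∈ s, (α i * (x i).1 p.1 + β i * (x i).1 p.2) = 0) ∧
      ∃ i ∈ s, α i ≠ 0 ∨ β i ≠ 0 := by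
  classical
  -- the evaluation map
  let T : (V × V) →ₗ[F] (s → F) × (s → F) :=
    LinearMap.prod (LinearMap.pi fun i => (x i).1 ∘ₗ LinearMap.fst F V V)
      (LinearMap.pi fun i => (x i).1 ∘ₗ LinearMap.snd F V V)
  have hT : T (u, v) ∉ D.map T := by
    rintro ⟨p, hp, hpT⟩
    apply h
    refine ⟨p, hp, fun i hi => ?_⟩
    have h1 := congrFun (congrArg Prod.fst hpT) ⟨i, hi⟩
    have h2 := congrFun (congrArg Prod.snd hpT) ⟨i, hi⟩
    exact ⟨h1, h2⟩
  obtain ⟨f, hf1, hf2⟩ := Submodule.exists_dual_map_eq_bot_of_notMem hT inferInstance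
  have hfD : ∀ p ∈ D, f (T p) = 0 := by
    intro p hp
    have h1 : f (T p) ∈ (D.map T).map f := ⟨T p, ⟨p, hp, rfl⟩, rfl⟩
    rw [hf2, Submodule.mem_bot] at h1
    exact h1
  -- coordinates of the functional
  set α : Λ → F := fun i => if hi : i ∈ s then f (Pi.single ⟨i, hi⟩ 1, 0) else 0 with hα
  set β : Λ → F := fun i => if hi : i ∈ s then f (0, Pi.single ⟨i, hi⟩ 1) else 0 with hβ
  have hfT : ∀ p : V × V, f (T p) = ∑ i ∈ s, (α i * (x i).1 p.1 + β i * (x i).1 p.2) := by
    intro p
    have h1 : T p = ∑ i : s, ((x i).1 p.1 • ((Pi.single i (1 : F) : s → F), (0 : s → F)) +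
        (x i).1 p.2 • ((0 : s → F), (Pi.single i (1 : F) : s → F))) := by
      apply Prod.ext
      · funext j
        change (x j).1 p.1 = _
        simp only [Prod.fst_sum, Prod.fst_add, Prod.smul_fst, smul_zero, add_zero,
          Finset.sum_apply, Pi.smul_apply, Pi.single_apply, smul_eq_mul, mul_ite, mul_one, mul_zero,
          Finset.sum_ite_eq, Finset.mem_univ, if_true]
      · funext j
        change (x j).1 p.2 = _
        simp only [Prod.snd_sum, Prod.snd_add, Prod.smul_snd, smul_zero, zero_add,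
          Finset.sum_apply, Pi.smul_apply, Pi.single_apply, smul_eq_mul, mul_ite, mul_one, mul_zero,
          Finset.sum_ite_eq, Finset.mem_univ, if_true]
    rw [h1, map_sum, ← Finset.sum_coe_sort s]
    refine Finset.sum_congr rfl fun i _ => ?_
    rw [map_add, map_smul, map_smul, smul_eq_mul, smul_eq_mul]
    simp only [hα, hβ, i.2, dif_pos]
    rw [mul_comm, mul_comm ((x i).1 p.2)]
  refine ⟨α, β, fun p hp => by rw [← hfT]; exact hfD p hp, ?_⟩
  by_contra hcon
  push Not at hcon
  apply hf1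
  rw [hfT]
  refine Finset.sum_eq_zero fun i hi => ?_
  rw [(hcon i hi).1, (hcon i hi).2, zero_mul, zero_mul, add_zero]

theorem Next.avoid {e : Λ → Valid} {x : Λ → Xty} {i : Λ} (h : Next e i (fun j _ => x j) (x i))
    (s : Finset Λ) (hs : ∀ j ∈ s, j < i) (α γ : Λ → F) (ζ : ℝ) :
    (fun n => (x i).1 (d n)) ≠ fun n => (∑ j ∈ s, α j * (x j).1 (d n)) +
      ∑ j ∈ s, γ j * (x j).1 (b ζ n) := by
  classical
  have hkey : ∀ δ : Λ → F, ∃ a : {j : Λ // j < i} →₀ F, ∀ w : V,
      (a.sum fun j t => t * (x j.1).1 w) = ∑ j ∈ s, δ j * (x j).1 w := by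
    intro δ
    refine ⟨Finsupp.onFinset (s.subtype (· < i)) (fun j => if j.1 ∈ s then δ j.1 else 0) ?_, ?_⟩
    · intro j hj
      rw [Finset.mem_subtype]
      by_contra hcon
      exact hj (if_neg hcon)
    · intro w
      rw [Finsupp.onFinset_sum _ (fun j => zero_mul _)]
      rw [Finset.sum_subtype_of_mem (fun j => (if j ∈ s then δ j else 0) * (x j).1 w) hs]
      refine Finset.sum_congr rfl fun j hj => ?_
      rw [if_pos hj]
  obtain ⟨a, ha⟩ := hkey α
  obtain ⟨c, hc⟩ := hkey γ
  intro heq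
  apply h.2.2 a c ζ
  rw [heq]
  funext n
  rw [ha, hc]

/-- The countable subgroup of `V × V`. -/
noncomputable def L (ζ ζ' ζ'' : ℝ) : ((ℕ →₀ F) × (ℕ →₀ F) × (ℕ →₀ F)) →ₗ[F] V × V :=
  LinearMap.prod
    (emb none ∘ₗ LinearMap.fst F _ _ +
      (emb (some ζ') ∘ₗ LinearMap.fst F _ _ + emb (some ζ'') ∘ₗ LinearMap.snd F _ _) ∘ₗ
        LinearMap.snd F _ _)
    (emb (some ζ) ∘ₗ LinearMap.fst F _ _ +
      (emb none ∘ₗ LinearMap.fst F _ _ + (emb (some ζ'') + emb none) ∘ₗ LinearMap.snd F _ _) ∘ₗ
        LinearMap.snd F _ _)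

theorem L_apply (ζ ζ' ζ'' : ℝ) (p q r : ℕ →₀ F) : L ζ ζ' ζ'' (p, q, r) =
    (emb none p + (emb (some ζ') q + emb (some ζ'') r),
      emb (some ζ) p + (emb none q + (emb (some ζ'') r + emb none r))) := rfl

theorem sum_split (s : Finset Λ) {i : Λ} (hi : i ∈ s) (g : Λ → F)
    (hg : ∀ j ∈ s, i < j → g j = 0) :
    ∑ j ∈ s, g j = g i + ∑ j ∈ s.filter (· < i), g j := by
  classical
  rw [← Finset.add_sum_erase s g hi]
  congr 1
  symm
  apply Finset.sum_subset
  · intro j hj
    rw [Finset.mem_filter] at hj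
    exact Finset.mem_erase.mpr ⟨hj.2.ne, hj.1⟩
  · intro j hj hj'
    rw [Finset.mem_erase] at hj
    rw [Finset.mem_filter, not_and, not_lt] at hj'
    exact hg j hj.2 (lt_of_le_of_ne (hj' hj.2) (Ne.symm hj.1))

theorem dense_L {e : Λ → Valid} {x : Λ → Xty} (hx : ∀ i, Next e i (fun j _ => x j) (x i))
    (ζ ζ' ζ'' : ℝ) :
    @Dense (V × V) (@instTopologicalSpaceProd V V (topo x) (topo x))
      ((LinearMap.range (L ζ ζ' ζ'') : Submodule F (V × V)) : Set (V × V)) := by
  classical
  apply dense_of_finite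
  intro s u v
  by_contra hcon
  obtain ⟨α, β, hsum, hne⟩ := exists_annihilator x (LinearMap.range (L ζ ζ' ζ'')) s u v hcon
  set t := s.filter (fun i => α i ≠ 0 ∨ β i ≠ 0) with ht
  have htne : t.Nonempty := by
    obtain ⟨i, hi, hi2⟩ := hne
    exact ⟨i, Finset.mem_filter.mpr ⟨hi, hi2⟩⟩
  set i := t.max' htne with hi
  have hit : i ∈ t := Finset.max'_mem _ _
  have his : i ∈ s := (Finset.mem_filter.mp hit).1
  have hab : α i ≠ 0 ∨ β i ≠ 0 := (Finset.mem_filter.mp hit).2
  have hbig : ∀ j ∈ s, i < j → α j = 0 ∧ β j = 0 := by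
    intro j hj hij
    by_contra hcon2
    have : j ∈ t := Finset.mem_filter.mpr ⟨hj, by
      by_contra h3
      push Not at h3
      exact hcon2 h3⟩
    exact absurd (Finset.le_max' t j this) (not_le.mpr hij)
  have hsplit : ∀ w z : V, (w, z) ∈ LinearMap.range (L ζ ζ' ζ'') →
      α i * (x i).1 w + β i * (x i).1 z =
        ∑ j ∈ s.filter (· < i), (α j * (x j).1 w + β j * (x j).1 z) := by
    intro w z hwz
    have h1 := hsum _ hwz
    rw [sum_split s his] at h1
    · have : ∀ a b : F, a + b = 0 → a = b := by decide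
      exact this _ _ h1
    · intro j hj hij
      rw [(hbig j hj hij).1, (hbig j hj hij).2, zero_mul, zero_mul, add_zero]
  have hlt : ∀ j ∈ s.filter (· < i), j < i := fun j hj => (Finset.mem_filter.mp hj).2
  have h1 : ∀ n, (d n, b ζ n) ∈ LinearMap.range (L ζ ζ' ζ'') := by
    intro n
    refine ⟨(Finsupp.single n 1, 0, 0), ?_⟩
    rw [L_apply]
    simp [emb_none, emb_some]
  have h2 : ∀ n, (b ζ' n, d n) ∈ LinearMap.range (L ζ ζ' ζ'') := by
    intro n
    refine ⟨(0, Finsupp.single n 1, 0), ?_⟩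
    rw [L_apply]
    simp [emb_none, emb_some]
  have h3 : ∀ n, (b ζ'' n, b ζ'' n + d n) ∈ LinearMap.range (L ζ ζ' ζ'') := by
    intro n
    refine ⟨(0, 0, Finsupp.single n 1), ?_⟩
    rw [L_apply]
    simp [emb_none, emb_some]
  have h01 : ∀ a : F, a = 0 ∨ a = 1 := by decide
  rcases h01 (α i) with ha | ha <;> rcases h01 (β i) with hb | hb
  · rcases hab with h | h
    · exact h ha
    · exact h hb
  · -- α i = 0, β i = 1
    refine (hx i).avoid (s.filter (· < i)) hlt β α ζ' (funext fun n => ?_)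
    have h4 := hsplit _ _ (h2 n)
    rw [ha, hb, zero_mul, zero_add, one_mul, Finset.sum_add_distrib, add_comm] at h4
    exact h4
  · -- α i = 1, β i = 0
    refine (hx i).avoid (s.filter (· < i)) hlt α β ζ (funext fun n => ?_)
    have h4 := hsplit _ _ (h1 n)
    rw [ha, hb, zero_mul, add_zero, one_mul, Finset.sum_add_distrib] at h4
    exact h4
  · -- α i = β i = 1
    refine (hx i).avoid (s.filter (· < i)) hlt β (α + β) ζ'' (funext fun n => ?_)
    have h4 := hsplit _ _ (h3 n)
    rw [ha, hb, one_mul, one_mul, map_add, ← add_assoc] at h4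
    have h5 : ∀ a : F, a + a = 0 := by decide
    rw [h5, zero_add] at h4
    rw [h4, ← Finset.sum_add_distrib]
    refine Finset.sum_congr rfl fun j _ => ?_
    rw [map_add, Pi.add_apply]
    ring

theorem d_mem_D0 (n : ℕ) : d n ∈ D0 := ⟨Finsupp.single n 1, emb_none n⟩

theorem d_ne_zero (n : ℕ) : d n ≠ 0 := by simp [d]

/-- A functional vanishing on a given countable subspace avoiding `D0`, with value `1` at a given
non-zero element of `D0`. -/
theorem exists_sep {e : Λ → Valid} {x : Λ → Xty} (he : Function.Surjective e)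
    (hx : ∀ i, Next e i (fun j _ => x j) (x i)) (f : ℕ → V)
    (hf : Submodule.span F (range f) ⊓ D0 = ⊥) (p : ℕ →₀ F) (hp : p ≠ 0) :
    ∃ i, (∀ v ∈ Submodule.span F (range f), (x i).1 v = 0) ∧ (x i).1 (emb none p) = 1 := by
  obtain ⟨i, hi⟩ := he ⟨(f, p), hf, hp⟩
  have h := hx i
  unfold Next at h
  rw [hi] at h
  exact ⟨i, h.1, h.2.1⟩

theorem eval_injective {e : Λ → Valid} {x : Λ → Xty} (he : Function.Surjective e)
    (hx : ∀ i, Next e i (fun j _ => x j) (x i)) : Function.Injective (evalHom x) := by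
  rw [injective_iff_map_eq_zero]
  intro g hg
  by_contra hne
  have hall : ∀ i, (x i).1 g = 0 := fun i => congrFun hg i
  by_cases hgD : g ∈ D0
  · obtain ⟨p, rfl⟩ := hgD
    have hp : p ≠ 0 := by
      rintro rfl
      exact hne (map_zero _)
    obtain ⟨i, _, hi⟩ := exists_sep he hx (fun _ => 0) (by
      have : Submodule.span F (range fun _ : ℕ => (0 : V)) = ⊥ := by
        rw [Submodule.span_eq_bot]
        rintro _ ⟨n, rfl⟩
        rfl
      rw [this, bot_inf_eq]) p hp
    rw [hall i] at hi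
    exact zero_ne_one hi
  · have hw : g + d 0 ∉ D0 := by
      intro h
      exact hgD (by simpa using D0.sub_mem h (d_mem_D0 0))
    obtain ⟨i, hi1, hi2⟩ := exists_sep he hx (fun _ => g + d 0) (by
      rw [Submodule.eq_bot_iff]
      rintro v ⟨hv1, hv2⟩
      rw [range_const, SetLike.mem_coe, Submodule.mem_span_singleton] at hv1
      obtain ⟨t, rfl⟩ := hv1
      have h01 : ∀ a : F, a = 0 ∨ a = 1 := by decide
      rcases h01 t with rfl | rfl
      · exact zero_smul _ _
      · rw [one_smul] at hv2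
        exact absurd hv2 hw) (Finsupp.single 0 1) (by simp)
    rw [emb_none] at hi2
    have h1 := hi1 (g + d 0) (Submodule.subset_span ⟨0, rfl⟩)
    rw [map_add, hall i, zero_add, hi2] at h1
    exact one_ne_zero h1

/-- **Main result.** There is a Hausdorff abelian topological group `G` (of exponent two) such that
`G × G` is d-independent but `G` is not. -/
theorem result : ∃ (G : Type) (_ : AddCommGroup G) (_ : TopologicalSpace G),
    IsTopologicalAddGroup G ∧ T2Space G ∧ DIndependent (G × G) ∧ ¬ DIndependent G := by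
  classical
  obtain ⟨e, x, he, hx⟩ := exists_family
  let _ : TopologicalSpace V := topo x
  have hcont0 : Continuous fun v : V => fun i : Λ => (x i).1 v := continuous_induced_dom
  have hcont : ∀ i, Continuous fun v : V => (x i).1 v := fun i =>
    (continuous_apply i).comp hcont0
  refine ⟨V, inferInstance, topo x, isTopologicalAddGroup_topo x, ?_, ?_, ?_⟩
  · exact T2Space.of_injective_continuous (eval_injective he hx) continuous_induced_dom
  · -- the square
    refine ⟨⟨(d 0, 0), 0, fun h => d_ne_zero 0 (Prod.ext_iff.mp h).1⟩, fun S hS => ?_⟩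
    -- the indices occurring in S
    set Z : Set ℝ := ⋃ p : S, {ζ | ∃ n, p.1.1 (some ζ, n) ≠ 0 ∨ p.1.2 (some ζ, n) ≠ 0} with hZ
    have hZc : #Z < 𝔠 := by
      refine mk_iUnion_le_sum_mk.trans_lt ?_
      have h1 : ∀ p : S, #{ζ : ℝ | ∃ n, p.1.1 (some ζ, n) ≠ 0 ∨ p.1.2 (some ζ, n) ≠ 0} ≤ ℵ₀ := by
        intro p
        have h2 : {ζ : ℝ | ∃ n, p.1.1 (some ζ, n) ≠ 0 ∨ p.1.2 (some ζ, n) ≠ 0} ⊆
            some ⁻¹' (Prod.fst '' ((p.1.1.support ∪ p.1.2.support : Finset (Option ℝ × ℕ)) :
              Set (Option ℝ × ℕ))) := by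
          rintro ζ ⟨n, hn⟩
          refine ⟨(some ζ, n), ?_, rfl⟩
          rw [Finset.mem_coe, Finset.mem_union, Finsupp.mem_support_iff, Finsupp.mem_support_iff]
          exact hn
        have h3 := (((p.1.1.support ∪ p.1.2.support).finite_toSet.image Prod.fst).preimage
          (Option.some_injective ℝ).injOn).subset h2
        exact h3.countable.le_aleph0
      refine (Cardinal.sum_le_sum _ (fun _ => ℵ₀) h1).trans_lt ?_
      rw [Cardinal.sum_const']
      exact mul_lt_of_lt aleph0_le_continuum hS aleph0_lt_continuum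
    have hinf : (Zᶜ : Set ℝ).Infinite := by
      intro hfin
      have h1 : #(univ : Set ℝ) < 𝔠 := by
        rw [← union_compl_self Z]
        refine (mk_union_le _ _).trans_lt (add_lt_of_lt aleph0_le_continuum hZc ?_)
        exact hfin.lt_aleph0.trans aleph0_lt_continuum
      rw [mk_univ, mk_real] at h1
      exact lt_irrefl _ h1
    obtain ⟨t, htZ, htc⟩ := hinf.exists_subset_card_eq 3
    obtain ⟨ζ, ζ', ζ'', h12, h13, h23, rfl⟩ := Finset.card_eq_three.mp htc
    have hz1 : ζ ∉ Z := htZ (by simp)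
    have hz2 : ζ' ∉ Z := htZ (by simp)
    have hz3 : ζ'' ∉ Z := htZ (by simp)
    have hzero : ∀ p ∈ S, ∀ ξ, ξ ∉ Z → ∀ n, p.1 (some ξ, n) = 0 ∧ p.2 (some ξ, n) = 0 := by
      intro p hp ξ hξ n
      by_contra hcon
      apply hξ
      refine mem_iUnion.mpr ⟨⟨p, hp⟩, n, ?_⟩
      by_contra h4
      push Not at h4
      exact hcon h4
    refine ⟨(LinearMap.range (L ζ ζ' ζ'')).toAddSubgroup, ?_, dense_L hx ζ ζ' ζ'', ?_⟩
    · change (range (L ζ ζ' ζ'')).Countable
      exact countable_range _
    · rw [AddSubgroup.eq_bot_iff_forall]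
      rintro p ⟨hpS, hpL⟩
      obtain ⟨⟨a1, a2, a3⟩, rfl⟩ := hpL
      rw [L_apply] at hpS ⊢
      have e2 : a2 = 0 := by
        ext n
        have h := (hzero _ hpS ζ' hz2 n).1
        simp only [Finsupp.add_apply] at h
        rw [emb_apply_ne (by simp), emb_apply_self,
          emb_apply_ne (by simpa using h23), zero_add, add_zero] at h
        exact h
      have e3 : a3 = 0 := by
        ext n
        have h := (hzero _ hpS ζ'' hz3 n).1
        simp only [Finsupp.add_apply] at h
        rw [emb_apply_ne (by simp), emb_apply_self,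
          emb_apply_ne (by simpa using Ne.symm h23), zero_add, zero_add] at h
        exact h
      have e1 : a1 = 0 := by
        ext n
        have h := (hzero _ hpS ζ hz1 n).2
        simp only [e2, e3, map_zero, add_zero] at h
        rw [emb_apply_self] at h
        exact h
      rw [e1, e2, e3]
      simp
  · -- the group itself
    rintro ⟨_, h⟩
    obtain ⟨D, hDc, hDd, hDS⟩ := h D0.toAddSubgroup (by
      have h1 : (D0 : Set V).Countable := by
        rw [D0, LinearMap.coe_range]
        exact countable_range _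
      exact (h1.le_aleph0).trans_lt aleph0_lt_continuum)
    obtain ⟨f, hf⟩ := hDc.exists_eq_range ⟨0, D.zero_mem⟩
    have hspan : (Submodule.span F (range f) : Set V) = D := by
      have h1 : Submodule.span F (range f) = AddSubgroup.toZModSubmodule 2 D := by
        rw [← hf, ← AddSubgroup.coe_toZModSubmodule 2 D, Submodule.span_eq]
      rw [h1]
      rfl
    obtain ⟨i, hi1, hi2⟩ := exists_sep he hx f (by
      rw [Submodule.eq_bot_iff]
      rintro v ⟨hv1, hv2⟩
      have h2 : v ∈ D := by
        rw [← SetLike.mem_coe, ← hspan]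
        exact hv1
      have h3 : v ∈ D0.toAddSubgroup ⊓ D := ⟨hv2, h2⟩
      rw [hDS] at h3
      exact h3) (Finsupp.single 0 1) (by simp)
    have hopen : IsOpen ((fun v : V => (x i).1 v) ⁻¹' {1}) :=
      (isOpen_discrete _).preimage (hcont i)
    obtain ⟨v, hv1, hv2⟩ := hDd.inter_open_nonempty _ hopen ⟨_, hi2⟩
    have h4 : (x i).1 v = 0 := hi1 v (by
      rw [← SetLike.mem_coe, hspan]
      exact hv2)
    rw [mem_preimage, mem_singleton_iff, h4] at hv1
    exact zero_ne_one hv1

end Pool.Agent.Results.MP_23f360_gt.SquareDIndependent
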